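import Pool.Agent.K1H17.LP.Stm2

/-! The logarithmic order of the forms `∏ (f c) ^ (e c) (dX) ^ μ` on the projective line. -/

set_option autoImplicit false

open FF Polynomial Pool.Agent.W619.PQ Pool.Agent.W619.TW Pool.Agent.W603.LV Pool.Agent.Y174 Pool.Agent.K1H17.IS
  Pool.Agent.K1H17.TP Pool.Agent.K1H17.LP

namespace Pool.Agent.K1H33.LP

section

variable {k K : Type} [Field k] [Field K] [Algebra k K]

/-- If `D` is logarithmic and `x ≠ 0` then `D x` has at least the order of `x`. -/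
theorem ge_of_log {q : Place k K} {D : Derivation k K K} (hD : ∀ z, q.Reg (D z / z)) {x : K}
    (hx : x ≠ 0) : Ge q (q.ord x) (D x) := by
  have h1 : Ge q 0 (D x / x) := hD x
  have h2 : Ge q (q.ord x) x := Or.inr le_rfl
  have h3 := h1.mul h2
  rwa [div_mul_cancel₀ _ hx, zero_add] at h3

/-- The order of the product of powers. -/
theorem geR_prod {q : Place k K} (z : Fin 2 → K) (hz : ∀ c, z c ≠ 0) (e : Fin 2 → ℤ) :
    GeR q (∑ c, (e c : ℝ) * (q.ord (z c) : ℝ)) (∏ c, z c ^ e c) := by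
  right
  rw [Fin.sum_univ_two, Fin.prod_univ_two, q.ord_mul (zpow_ne_zero _ (hz 0)) (zpow_ne_zero _ (hz 1)),
    q.ord_zpow, q.ord_zpow]
  push_cast
  exact le_rfl

theorem form_ge {q : Place k K} {X : K} (z : Fin 2 → K) (hz : ∀ c, z c ≠ 0) (e : Fin 2 → ℤ) (μ : ℕ)
    {n : ℤ} (D : Fin 1 → Derivation k K K) (h : Ge q n (D 0 X)) :
    GeR q (∑ c, (e c : ℝ) * (q.ord (z c) : ℝ) + μ * (n : ℝ)) ((∏ c, z c ^ e c) *
      (Matrix.of fun i _ => D i X : Matrix (Fin 1) (Fin 1) K).det ^ μ) := by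
  have h1 := (geR_prod (q := q) z hz e).mul ((Ge.toR h).pow μ)
  rw [Matrix.det_fin_one, Matrix.of_apply]
  exact h1

end

theorem t_FRM : S_FRM := by
  intro k K _ _ _ _ _ X hX f e μ hsq
  have hne : ∀ c, f c ≠ 0 := by
    intro c hc
    refine not_squarefree_zero (R := k[X]) ?_
    have : f 0 * f 1 = 0 := by
      fin_cases c
      · change f 0 = 0 at hc
        rw [hc, zero_mul]
      · change f 1 = 0 at hc
        rw [hc, mul_zero]
    rwa [this] at hsq
  have hinj : ∀ p : k[X], p ≠ 0 → aeval X p ≠ 0 := fun p hp h => hp ((transcendental_iff.1 hX.tr) p h)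
  refine ⟨fun q a hq D hD hl => ?_, fun q hq D hD hl => ?_⟩
  · have h1 : Ge q 1 (D 0 X) := by
      have hp : (Polynomial.X - C a : k[X]) ≠ 0 := X_sub_C_ne_zero a
      have h2 := ge_of_log (hl 0) (hinj _ hp)
      rw [hq _ hp, rootMultiplicity_X_sub_C_self, map_sub, aeval_X, aeval_C, map_sub,
        Derivation.map_algebraMap, sub_zero] at h2
      exact_mod_cast h2
    have h2 := form_ge (q := q) (X := X) (fun c => aeval X (f c)) (fun c => hinj _ (hne c)) e μ D h1
    refine h2.mono (le_of_eq ?_)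
    simp only [hq _ (hne _)]
    push_cast
    ring
  · have h1 : Ge q (-1) (D 0 X) := by
      have hp : (Polynomial.X : k[X]) ≠ 0 := X_ne_zero
      have h2 := ge_of_log (hl 0) (hinj _ hp)
      rw [hq _ hp, natDegree_X, aeval_X] at h2
      exact_mod_cast h2
    have h2 := form_ge (q := q) (X := X) (fun c => aeval X (f c)) (fun c => hinj _ (hne c)) e μ D h1
    refine h2.mono (le_of_eq ?_)
    simp only [hq _ (hne _)]
    push_cast
    rw [← Finset.sum_neg_distrib]
    simp only [mul_neg]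
    ring

end Pool.Agent.K1H33.LP
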